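import Pool.Agent.W181.WH.Stm

namespace Pool.Agent.W800.WH

open Pool.Agent.W181.WH

section

set_option linter.unusedSectionVars false

variable {B : Type} [Ring B] [Algebra ℂ B] (p T : ℕ → B) (z : ℂ)

theorem D_zero_zero : Dch p T 0 0 = 1 := by simp [Dch]
theorem D_zero_succ (k : ℕ) : Dch p T 0 (k + 1) = 0 := by simp [Dch]
theorem D_one_zero : Dch p T 1 0 = 1 := by simp [Dch]
theorem D_one_one : Dch p T 1 1 = p 1 := by simp [Dch]
theorem D_one_ss (k : ℕ) : Dch p T 1 (k + 2) = 0 := by simp [Dch]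
theorem D_ss_zero (l : ℕ) : Dch p T (l + 2) 0 = 1 := by simp [Dch]
theorem D_ss_one (l : ℕ) : Dch p T (l + 2) 1 = Dch p T (l + 1) 1 + p (l + 2) := by simp [Dch]
theorem D_ss_ss (l k : ℕ) : Dch p T (l + 2) (k + 2) = Dch p T (l + 1) (k + 2) +
    p (l + 2) * Dch p T (l + 1) (k + 1) + T (l + 1) * Dch p T l k := by simp [Dch]

theorem D_zero : ∀ l, Dch p T l 0 = 1
  | 0 => D_zero_zero p T
  | 1 => D_one_zero p T
  | l + 2 => D_ss_zero p T l

theorem D_big : ∀ l k, l < k → Dch p T l k = 0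
  | 0, 0, h => absurd h (by omega)
  | 0, k + 1, _ => D_zero_succ p T k
  | 1, 0, h => absurd h (by omega)
  | 1, 1, h => absurd h (by omega)
  | 1, k + 2, _ => D_one_ss p T k
  | l + 2, 0, h => absurd h (by omega)
  | l + 2, 1, h => absurd h (by omega)
  | l + 2, k + 2, h => by
    rw [D_ss_ss, D_big (l + 1) (k + 2) (by omega), D_big (l + 1) (k + 1) (by omega),
      D_big l k (by omega)]
    simp

/-- the sum -/
noncomputable def Sm' (l : ℕ) : B :=
  ∑ k ∈ Finset.range (l + 1), ((-1) ^ k * z ^ (l - k) : ℂ) • Dch p T l k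

theorem A_zero : Ach p T z 0 = 1 := by simp [Ach]
theorem A_one : Ach p T z 1 = algebraMap ℂ B z - p 1 := by simp [Ach]
theorem A_ss (l : ℕ) : Ach p T z (l + 2) = (algebraMap ℂ B z - p (l + 2)) * Ach p T z (l + 1) +
    T (l + 1) * Ach p T z l := by simp [Ach]

theorem A_eq : ∀ l, Ach p T z l = Sm' p T z l
  | 0 => by
    rw [A_zero, Sm']
    simp [D_zero_zero]
  | 1 => by
    rw [A_one, Sm', Finset.sum_range_succ, Finset.sum_range_one, D_one_zero, D_one_one]
    simp [Algebra.smul_def, sub_eq_add_neg]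
  | l + 2 => by
    rw [A_ss, A_eq (l + 1), A_eq l]
    unfold Sm'
    have hs : ∀ f : ℕ → B, ∑ k ∈ Finset.range (l + 2 + 1), f k =
        ∑ k ∈ Finset.range (l + 1), f (k + 1 + 1) + f (0 + 1) + f 0 := fun f => by
      rw [Finset.sum_range_succ', Finset.sum_range_succ']
    rw [hs]
    -- right side
    have h1 : ∀ k ∈ Finset.range (l + 1),
        ((-1) ^ (k + 1 + 1) * z ^ (l + 2 - (k + 1 + 1)) : ℂ) • Dch p T (l + 2) (k + 1 + 1) =
        ((-1) ^ (k + 2) * z ^ (l - k) : ℂ) • Dch p T (l + 1) (k + 2) +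
        ((-1) ^ (k + 2) * z ^ (l - k) : ℂ) • (p (l + 2) * Dch p T (l + 1) (k + 1)) +
        ((-1) ^ k * z ^ (l - k) : ℂ) • (T (l + 1) * Dch p T l k) := by
      intro k hk
      have e : l + 2 - (k + 1 + 1) = l - k := by omega
      have e2 : ((-1 : ℂ)) ^ (k + 1 + 1) = (-1) ^ k := by rw [pow_succ, pow_succ]; ring
      rw [e, D_ss_ss, smul_add, smul_add, e2]
    rw [Finset.sum_congr rfl h1, Finset.sum_add_distrib, Finset.sum_add_distrib]
    -- left side: split `z` part
    have hz : algebraMap ℂ B z * ∑ k ∈ Finset.range (l + 1 + 1),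
        ((-1) ^ k * z ^ (l + 1 - k) : ℂ) • Dch p T (l + 1) k =
        ∑ k ∈ Finset.range (l + 1), ((-1) ^ (k + 2) * z ^ (l - k) : ℂ) • Dch p T (l + 1) (k + 2) +
          ((-1) ^ (0 + 1) * z ^ (l + 2 - (0 + 1)) : ℂ) • Dch p T (l + 1) 1 +
          ((-1) ^ 0 * z ^ (l + 2 - 0) : ℂ) • Dch p T (l + 1) 0 := by
      have h2 : ∑ k ∈ Finset.range (l + 1), ((-1) ^ (k + 2) * z ^ (l - k) : ℂ) •
          Dch p T (l + 1) (k + 2) =
          ∑ k ∈ Finset.range l, ((-1) ^ (k + 2) * z ^ (l - k) : ℂ) • Dch p T (l + 1) (k + 2) := by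
        rw [Finset.sum_range_succ, D_big p T (l + 1) (l + 2) (by omega), smul_zero, add_zero]
      rw [h2, Finset.sum_range_succ' _ (l + 1), Finset.sum_range_succ' _ l, mul_add, mul_add,
        Finset.mul_sum]
      have h3 : ∀ (c : ℂ) (x : B), algebraMap ℂ B z * (c • x) = (z * c) • x := by
        intro c x
        rw [mul_smul_comm, ← Algebra.smul_def, smul_smul, mul_comm]
      simp only [h3]
      congr 1
      · congr 1
        · refine Finset.sum_congr rfl fun k hk => ?_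
          have hk' := Finset.mem_range.1 hk
          have e : l - k = (l + 1 - (k + 1 + 1)) + 1 := by omega
          congr 1
          rw [e, pow_succ z]
          ring
        · congr 1
          have e : l + 2 - (0 + 1) = (l + 1 - (0 + 1)) + 1 := by omega
          rw [e, pow_succ z]
          ring
      · congr 1
        have e : l + 2 - 0 = (l + 1 - 0) + 1 := by omega
        rw [e, pow_succ z]
        ring
    have hp : p (l + 2) * ∑ k ∈ Finset.range (l + 1 + 1),
        ((-1) ^ k * z ^ (l + 1 - k) : ℂ) • Dch p T (l + 1) k =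
        -(∑ k ∈ Finset.range (l + 1), ((-1) ^ (k + 2) * z ^ (l - k) : ℂ) •
          (p (l + 2) * Dch p T (l + 1) (k + 1))) +
          ((-1) ^ 0 * z ^ (l + 1 - 0) : ℂ) • (p (l + 2) * Dch p T (l + 1) 0) := by
      rw [Finset.sum_range_succ' _ (l + 1), mul_add, Finset.mul_sum, ← Finset.sum_neg_distrib]
      congr 1
      · refine Finset.sum_congr rfl fun k hk => ?_
        have e : l + 1 - (k + 1) = l - k := by omega
        rw [mul_smul_comm, e, ← neg_smul]
        congr 1
        rw [pow_add (-1 : ℂ) k 2, pow_add (-1 : ℂ) k 1]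
        ring
      · rw [mul_smul_comm]
    rw [sub_mul, hz, hp, Finset.mul_sum]
    have ht : ∑ k ∈ Finset.range (l + 1), T (l + 1) * ((-1) ^ k * z ^ (l - k) : ℂ) • Dch p T l k =
        ∑ k ∈ Finset.range (l + 1), ((-1) ^ k * z ^ (l - k) : ℂ) • (T (l + 1) * Dch p T l k) :=
      Finset.sum_congr rfl fun k _ => mul_smul_comm _ _ _
    rw [ht]
    have d1 : Dch p T (l + 2) (0 + 1) = Dch p T (l + 1) 1 + p (l + 2) := D_ss_one p T l
    rw [d1, D_ss_zero, D_zero p T (l + 1), mul_one, smul_add]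
    have e4 : ((-1) ^ (0 + 1) * z ^ (l + 2 - (0 + 1)) : ℂ) • p (l + 2) =
        -(((-1) ^ 0 * z ^ (l + 1 - 0) : ℂ) • p (l + 2)) := by
      have e : l + 2 - (0 + 1) = l + 1 - 0 := by omega
      rw [e, ← neg_smul]
      congr 1
      ring
    rw [e4]
    abel

end

/-- **COEF** -/
theorem t_coef : S_COEF := fun _ _ _ p T z l =>
  ⟨D_big p T l, D_zero p T l, A_eq p T z l⟩

end Pool.Agent.W800.WH
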