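import Pool.Agent.W800.WH.Rel

namespace Pool.Agent.W800.WH

open Pool.Agent.W181.WH

variable {N : ℕ} {B : Type} [Ring B] [Algebra ℂ B] (R : Rep N B)

theorem totalDegree_shiftP (S : Fin N → ℕ) (P : MvPolynomial (Fin N) ℂ) :
    (shiftP S P).totalDegree ≤ P.totalDegree := by
  classical
  have h : shiftP S P = ∑ s ∈ P.support, MvPolynomial.C (P.coeff s) *
      ∏ j : Fin N, (MvPolynomial.X j + MvPolynomial.C (S j : ℂ)) ^ s j := by
    conv_lhs => rw [P.as_sum]
    rw [map_sum]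
    refine Finset.sum_congr rfl fun s _ => ?_
    rw [shiftP, MvPolynomial.aeval_monomial]
    congr 1
    exact Finsupp.prod_fintype s _ fun j => pow_zero _
  rw [h]
  refine MvPolynomial.totalDegree_finsetSum_le fun s hs => ?_
  refine (MvPolynomial.totalDegree_mul _ _).trans ?_
  rw [MvPolynomial.totalDegree_C, zero_add]
  refine (MvPolynomial.totalDegree_finsetProd _ _).trans ?_
  refine le_trans (Finset.sum_le_sum (g := fun j => s j) fun j _ => ?_) ?_
  · refine (MvPolynomial.totalDegree_pow _ _).trans ?_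
    have h1 : (MvPolynomial.X j + MvPolynomial.C (S j : ℂ) :
        MvPolynomial (Fin N) ℂ).totalDegree ≤ 1 := by
      refine (MvPolynomial.totalDegree_add _ _).trans ?_
      rw [MvPolynomial.totalDegree_X, MvPolynomial.totalDegree_C]
      simp
    calc s j * _ ≤ s j * 1 := Nat.mul_le_mul_left _ h1
      _ = s j := mul_one _
  · have h2 := MvPolynomial.le_totalDegree hs
    rw [Finsupp.sum_fintype _ _ fun _ => rfl] at h2
    exact h2

theorem gen_mem {m : Fin N} {δ w : ℕ} (P : MvPolynomial (Fin N) ℂ) (S : Fin N → ℕ)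
    (h1 : P.totalDegree + 2 * ∑ j, S j ≤ w) (h2 : δ ≤ S m) : R.θ P * R.τ S ∈ R.V m δ w :=
  Submodule.subset_span ⟨P, S, h1, h2, rfl⟩

theorem V_mul {m : Fin N} {δ w δ' w' : ℕ} {b b' : B} (hb : b ∈ R.V m δ w)
    (hb' : b' ∈ R.V m δ' w') : b * b' ∈ R.V m (δ + δ') (w + w') := by
  have h := Submodule.mul_mem_mul hb hb'
  unfold Pool.Agent.W181.WH.Rep.V at h
  rw [Submodule.span_mul_span] at h
  refine Submodule.span_le.2 ?_ h
  rintro _ ⟨_, ⟨P, S, h1, h2, rfl⟩, _, ⟨P', S', h3, h4, rfl⟩, rfl⟩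
  have e : R.θ P * R.τ S * (R.θ P' * R.τ S') = R.θ (P * shiftP S P') * R.τ (S + S') := by
    calc R.θ P * R.τ S * (R.θ P' * R.τ S') = R.θ P * (R.τ S * R.θ P') * R.τ S' := by
          simp only [mul_assoc]
      _ = _ := by
        rw [R.comm, map_mul, R.τ_add]
        simp only [mul_assoc]
  show R.θ P * R.τ S * (R.θ P' * R.τ S') ∈ R.V m (δ + δ') (w + w')
  rw [e]
  refine gen_mem R _ _ ?_ ?_
  · have h5 := (MvPolynomial.totalDegree_mul P (shiftP S P'))
    have h6 := totalDegree_shiftP S P'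
    simp only [Pi.add_apply, Finset.sum_add_distrib]
    omega
  · simp only [Pi.add_apply]
    omega

theorem V_mono {m : Fin N} {δ w δ' w' : ℕ} (h : δ' ≤ δ) (h' : w ≤ w') :
    R.V m δ w ≤ R.V m δ' w' := by
  unfold Pool.Agent.W181.WH.Rep.V
  refine Submodule.span_mono ?_
  rintro _ ⟨P, S, h1, h2, rfl⟩
  exact ⟨P, S, h1.trans h', h.trans h2, rfl⟩

theorem V_one {m : Fin N} : (1 : B) ∈ R.V m 0 0 := by
  have h := gen_mem R (m := m) (δ := 0) (w := 0) 1 0 (by simp) (by simp)
  rwa [map_one, R.τ_zero, mul_one] at h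

theorem V_theta {m : Fin N} (P : MvPolynomial (Fin N) ℂ) {w : ℕ} (h : P.totalDegree ≤ w) :
    R.θ P ∈ R.V m 0 w := by
  have h := gen_mem R (m := m) (δ := 0) (w := w) P 0 (by simpa using h) (by simp)
  rwa [R.τ_zero, mul_one] at h

theorem sv_deg (j : ℕ) : (sv N j).totalDegree ≤ 1 := by
  unfold sv
  split_ifs
  · rw [MvPolynomial.totalDegree_X]
  · rw [MvPolynomial.totalDegree_zero]
    omega

theorem V_p {m : Fin N} (k : ℕ) : R.p k ∈ R.V m 0 1 := by
  unfold Rep.p
  refine V_theta R _ ?_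
  refine (MvPolynomial.totalDegree_sub _ _).trans ?_
  exact max_le (sv_deg _) (sv_deg _)

theorem V_T {m : Fin N} (j : ℕ) {δ : ℕ} (h : δ = 0 ∨ (δ = 1 ∧ j = (m : ℕ) + 1)) :
    R.T j ∈ R.V m δ 2 := by
  classical
  unfold Rep.T
  split_ifs with hj
  · have h1 := gen_mem R (m := m) (δ := δ) (w := 2) 1 (Pi.single ⟨j - 1, by omega⟩ 1)
      (by
        rw [MvPolynomial.totalDegree_one, Finset.sum_pi_single']
        simp) (by
        rcases h with rfl | ⟨rfl, rfl⟩
        · exact Nat.zero_le _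
        · have e : (⟨(m : ℕ) + 1 - 1, by omega⟩ : Fin N) = m := by
            apply Fin.ext
            simp
          rw [e]
          simp)
    rwa [map_one, one_mul] at h1
  · exact Submodule.zero_mem _

/-- **VMUL** -/
theorem t_vmul : S_VMUL := by
  intro N B _ _ R m
  refine ⟨fun δ w δ' w' b b' hb hb' => V_mul R hb hb', V_one R, fun δ w δ' w' h h' =>
    V_mono R h h', fun P => V_theta R P le_rfl, V_p R, fun j => V_T R j (Or.inl rfl),
    V_T R _ (Or.inr ⟨rfl, rfl⟩)⟩

end Pool.Agent.W800.WH
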