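import Pool.Agent.W800.WH.Coef
import Pool.Agent.W800.WH.Vmul

open Polynomial

namespace Pool.Agent.W800.WH

open Pool.Agent.W181.WH

section gen

variable {B : Type} [Ring B] (p T : ℕ → B)

/-- generating polynomial of the coefficients -/
noncomputable def Pch : ℕ → B[X]
  | 0 => 1
  | 1 => 1 + C (p 1) * X
  | l + 2 => (1 + C (p (l + 2)) * X) * Pch (l + 1) + C (T (l + 1)) * X ^ 2 * Pch l

theorem Pch_zero : Pch p T 0 = 1 := by simp [Pch]
theorem Pch_one : Pch p T 1 = 1 + C (p 1) * X := by simp [Pch]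
theorem Pch_ss (l : ℕ) : Pch p T (l + 2) =
    (1 + C (p (l + 2)) * X) * Pch p T (l + 1) + C (T (l + 1)) * X ^ 2 * Pch p T l := by
  simp [Pch]

variable [Algebra ℂ B]

theorem coeff_Pch : ∀ l k, (Pch p T l).coeff k = Dch p T l k
  | 0, 0 => by rw [Pch_zero, D_zero_zero]; simp
  | 0, k + 1 => by rw [Pch_zero, D_zero_succ]; simp [coeff_one]
  | 1, 0 => by rw [Pch_one, D_one_zero]; simp
  | 1, 1 => by rw [Pch_one, D_one_one]; simp [coeff_one]
  | 1, k + 2 => by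
    rw [Pch_one, D_one_ss, coeff_add, coeff_C_mul, coeff_one, coeff_X]
    simp
  | l + 2, 0 => by
    rw [Pch_ss, D_ss_zero, coeff_add, add_mul, one_mul, coeff_add, mul_assoc, mul_assoc,
      coeff_C_mul, coeff_C_mul, coeff_Pch (l + 1) 0, D_zero p T]
    simp [mul_coeff_zero]
  | l + 2, 1 => by
    rw [Pch_ss, D_ss_one, coeff_add, add_mul, one_mul, coeff_add, mul_assoc, mul_assoc,
      coeff_C_mul, coeff_C_mul, coeff_Pch (l + 1) 1]
    have h1 : (X * Pch p T (l + 1)).coeff 1 = Dch p T (l + 1) 0 := by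
      rw [show (1 : ℕ) = 0 + 1 from rfl, coeff_X_mul, coeff_Pch]
    have h2 : (X ^ 2 * Pch p T l).coeff 1 = 0 := by
      rw [coeff_X_pow_mul']
      simp
    rw [h1, h2, D_zero p T, mul_zero, mul_one, add_zero]
  | l + 2, k + 2 => by
    rw [Pch_ss, D_ss_ss, coeff_add, add_mul, one_mul, coeff_add, mul_assoc, mul_assoc,
      coeff_C_mul, coeff_C_mul, coeff_Pch (l + 1) (k + 2), coeff_X_pow_mul, coeff_Pch l k]
    have h1 : (X * Pch p T (l + 1)).coeff (k + 2) = Dch p T (l + 1) (k + 1) := by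
      rw [show k + 2 = (k + 1) + 1 from rfl, coeff_X_mul, coeff_Pch]
    rw [h1]

omit [Algebra ℂ B] in
theorem comm_Dch (x : B) : ∀ l k, (∀ i, 1 ≤ i → i ≤ l → Commute x (p i)) →
    (∀ j, 1 ≤ j → j < l → Commute x (T j)) → Commute x (Dch p T l k)
  | 0, 0, _, _ => by simp [Dch]
  | 0, k + 1, _, _ => by simp [Dch]
  | 1, 0, _, _ => by simp [Dch]
  | 1, 1, hp, _ => by simpa [Dch] using hp 1 le_rfl le_rfl
  | 1, k + 2, _, _ => by simp [Dch]
  | l + 2, 0, _, _ => by simp [Dch]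
  | l + 2, 1, hp, hT => by
    have h1 := comm_Dch x (l + 1) 1 (fun i h h' => hp i h (by omega))
      (fun j h h' => hT j h (by omega))
    have h2 := hp (l + 2) (by omega) le_rfl
    simpa [Dch] using h1.add_right h2
  | l + 2, k + 2, hp, hT => by
    have h1 := comm_Dch x (l + 1) (k + 2) (fun i h h' => hp i h (by omega))
      (fun j h h' => hT j h (by omega))
    have h2 := comm_Dch x (l + 1) (k + 1) (fun i h h' => hp i h (by omega))
      (fun j h h' => hT j h (by omega))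
    have h3 := comm_Dch x l k (fun i h h' => hp i h (by omega))
      (fun j h h' => hT j h (by omega))
    have h4 := hp (l + 2) (by omega) le_rfl
    have h5 := hT (l + 1) (by omega) (by omega)
    simpa [Dch] using (h1.add_right (h4.mul_right h2)).add_right (h5.mul_right h3)

theorem comm_Pch (x : B) (l : ℕ) (hp : ∀ i, 1 ≤ i → i ≤ l → Commute x (p i))
    (hT : ∀ j, 1 ≤ j → j < l → Commute x (T j)) : Commute (C x) (Pch p T l) := by
  unfold Commute SemiconjBy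
  ext k
  rw [coeff_C_mul, coeff_mul_C, coeff_Pch]
  exact comm_Dch p T x l k hp hT

end gen

section main

variable {N : ℕ} {B : Type} [Ring B] [Algebra ℂ B] (R : Pool.Agent.W181.WH.Rep N B) (m : Fin N)

/-- all coefficients in the right space -/
def InV (δ : ℕ) (Q : B[X]) : Prop := ∀ k, Q.coeff k ∈ R.V m δ k

variable {R m}

theorem InV.add {δ : ℕ} {Q Q' : B[X]} (h : InV R m δ Q) (h' : InV R m δ Q') :
    InV R m δ (Q + Q') := by
  intro k
  rw [coeff_add]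
  exact Submodule.add_mem _ (h k) (h' k)

theorem InV.mul {δ δ' : ℕ} {Q Q' : B[X]} (h : InV R m δ Q) (h' : InV R m δ' Q') :
    InV R m (δ + δ') (Q * Q') := by
  intro k
  rw [coeff_mul]
  refine Submodule.sum_mem _ fun x hx => ?_
  have h1 := V_mul R (h x.1) (h' x.2)
  rwa [Finset.HasAntidiagonal.mem_antidiagonal.1 hx] at h1

theorem InV.zero {δ : ℕ} : InV R m δ (0 : B[X]) := by
  intro k
  rw [coeff_zero]
  exact Submodule.zero_mem _

theorem InV.one : InV R m 0 (1 : B[X]) := by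
  intro k
  rw [coeff_one]
  split_ifs with h
  · subst h
    exact V_one R
  · exact Submodule.zero_mem _

theorem InV.mon {δ : ℕ} {x : B} {n : ℕ} (h : x ∈ R.V m δ n) : InV R m δ (C x * X ^ n) := by
  intro k
  rw [coeff_C_mul_X_pow]
  split_ifs with hk
  · rw [hk]
    exact h
  · exact Submodule.zero_mem _

theorem InV.lin {x : B} (h : x ∈ R.V m 0 1) : InV R m 0 (1 + C x * X) := by
  have h1 := InV.mon (n := 1) h
  rw [pow_one] at h1
  exact InV.one.add h1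

theorem InV.Pch {p T : ℕ → B} (hp : ∀ i, p i ∈ R.V m 0 1) (hT : ∀ i, T i ∈ R.V m 0 2) :
    ∀ l, InV R m 0 (Pch p T l)
  | 0 => by rw [Pch_zero]; exact InV.one
  | 1 => by rw [Pch_one]; exact InV.lin (hp 1)
  | l + 2 => by
    rw [Pch_ss]
    exact ((InV.lin (hp _)).mul (InV.Pch hp hT (l + 1))).add
      ((InV.mon (hT _)).mul (InV.Pch hp hT l))

variable (R m)

/-- the shifted chain -/
noncomputable abbrev p2 : ℕ → B := fun k => R.p ((m : ℕ) + 1 + k)

/-- the shifted couplings -/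
noncomputable abbrev T2 : ℕ → B := fun k => R.T ((m : ℕ) + 1 + k)

theorem commP (j : ℕ) (hj : 1 ≤ j) :
    Commute (C (R.p ((m : ℕ) + 1 + j))) (Pch R.p R.T ((m : ℕ) + 1)) := by
  obtain ⟨h1, h2, h3, h4, h5⟩ := rel R
  refine comm_Pch _ _ _ _ (fun i _ _ => h1 _ _) (fun i hi hi' => ?_)
  exact h3 _ _ (by omega) (by omega)

theorem commT (j : ℕ) (hj : 1 ≤ j) :
    Commute (C (R.T ((m : ℕ) + 1 + j))) (Pch R.p R.T ((m : ℕ) + 1)) := by
  obtain ⟨h1, h2, h3, h4, h5⟩ := rel R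
  refine comm_Pch _ _ _ _ (fun i _ hi => ?_) (fun i hi hi' => h2 _ _)
  exact (h3 _ _ (by omega) (by omega)).symm

omit [Algebra ℂ B] in
theorem comm_lin {x : B} {Q : B[X]} (h : Commute (C x) Q) : Commute (1 + C x * X) Q := by
  have h1 : Commute (X : B[X]) Q := Polynomial.commute_X Q
  exact (Commute.one_left Q).add_left (h.mul_left h1)

omit [Algebra ℂ B] in
theorem comm_sq {x : B} {Q : B[X]} (h : Commute (C x) Q) : Commute (C x * X ^ 2) Q := by
  have h1 : Commute (X : B[X]) Q := Polynomial.commute_X Q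
  exact h.mul_left (h1.pow_left 2)

theorem main_zero : InV R m 1
    (Pch R.p R.T ((m : ℕ) + 1 + 0) - Pch R.p R.T ((m : ℕ) + 1) * Pch (p2 R m) (T2 R m) 0) := by
  rw [Pch_zero, mul_one, add_zero, sub_self]
  exact InV.zero

theorem main_one_aux {x : B} {Pa P0 Q : B[X]} (c1 : Commute (C x) Pa) (h1 : InV R m 1 Q)
    (h2 : InV R m 0 P0) : InV R m 1 ((1 + C x * X) * Pa + Q * P0 - Pa * (1 + C x * X)) := by
  have e3 : (1 + C x * X) * Pa = Pa * (1 + C x * X) := comm_lin c1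
  rw [e3, add_sub_cancel_left]
  have h3 := h1.mul h2
  rw [add_zero] at h3
  exact h3

theorem main_one : InV R m 1
    (Pch R.p R.T ((m : ℕ) + 1 + 1) - Pch R.p R.T ((m : ℕ) + 1) * Pch (p2 R m) (T2 R m) 1) := by
  have e1 : Pch R.p R.T ((m : ℕ) + 1 + 1) =
      (1 + C (R.p ((m : ℕ) + 1 + 1)) * X) * Pch R.p R.T ((m : ℕ) + 1) +
        C (R.T ((m : ℕ) + 1)) * X ^ 2 * Pch R.p R.T (m : ℕ) := Pch_ss R.p R.T (m : ℕ)
  have e2 : Pch (p2 R m) (T2 R m) 1 = 1 + C (R.p ((m : ℕ) + 1 + 1)) * X := Pch_one _ _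
  rw [e1, e2]
  exact main_one_aux R m (commP R m 1 le_rfl) (InV.mon (V_T R _ (Or.inr ⟨rfl, rfl⟩)))
    (InV.Pch (V_p R) (fun j => V_T R j (Or.inl rfl)) _)

theorem main_step (l : ℕ)
    (ih1 : InV R m 1 (Pch R.p R.T ((m : ℕ) + 1 + (l + 1)) -
      Pch R.p R.T ((m : ℕ) + 1) * Pch (p2 R m) (T2 R m) (l + 1)))
    (ih0 : InV R m 1 (Pch R.p R.T ((m : ℕ) + 1 + l) -
      Pch R.p R.T ((m : ℕ) + 1) * Pch (p2 R m) (T2 R m) l)) :
    InV R m 1 (Pch R.p R.T ((m : ℕ) + 1 + (l + 2)) -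
      Pch R.p R.T ((m : ℕ) + 1) * Pch (p2 R m) (T2 R m) (l + 2)) := by
  have e1 : Pch R.p R.T ((m : ℕ) + 1 + (l + 2)) =
      (1 + C (R.p ((m : ℕ) + 1 + (l + 2))) * X) * Pch R.p R.T ((m : ℕ) + 1 + (l + 1)) +
        C (R.T ((m : ℕ) + 1 + (l + 1))) * X ^ 2 * Pch R.p R.T ((m : ℕ) + 1 + l) :=
    Pch_ss R.p R.T ((m : ℕ) + 1 + l)
  have e2 : Pch (p2 R m) (T2 R m) (l + 2) =
      (1 + C (R.p ((m : ℕ) + 1 + (l + 2))) * X) * Pch (p2 R m) (T2 R m) (l + 1) +
        C (R.T ((m : ℕ) + 1 + (l + 1))) * X ^ 2 * Pch (p2 R m) (T2 R m) l := Pch_ss _ _ l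
  have c1 : (1 + C (R.p ((m : ℕ) + 1 + (l + 2))) * X) * Pch R.p R.T ((m : ℕ) + 1) =
      Pch R.p R.T ((m : ℕ) + 1) * (1 + C (R.p ((m : ℕ) + 1 + (l + 2))) * X) :=
    comm_lin (commP R m (l + 2) (by omega))
  have c2 : (C (R.T ((m : ℕ) + 1 + (l + 1))) * X ^ 2) * Pch R.p R.T ((m : ℕ) + 1) =
      Pch R.p R.T ((m : ℕ) + 1) * (C (R.T ((m : ℕ) + 1 + (l + 1))) * X ^ 2) :=
    comm_sq (commT R m (l + 1) (by omega))
  have hLV : InV R m 0 (1 + C (R.p ((m : ℕ) + 1 + (l + 2))) * X) := InV.lin (V_p R _)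
  have hQV : InV R m 0 (C (R.T ((m : ℕ) + 1 + (l + 1))) * X ^ 2) :=
    InV.mon (V_T R _ (Or.inl rfl))
  rw [e1, e2]
  generalize Pch R.p R.T ((m : ℕ) + 1) = Pa at *
  generalize Pch R.p R.T ((m : ℕ) + 1 + (l + 1)) = P1 at *
  generalize Pch R.p R.T ((m : ℕ) + 1 + l) = P0 at *
  generalize Pch (p2 R m) (T2 R m) (l + 1) = Q1 at *
  generalize Pch (p2 R m) (T2 R m) l = Q0 at *
  generalize 1 + C (R.p ((m : ℕ) + 1 + (l + 2))) * X = L at *
  generalize C (R.T ((m : ℕ) + 1 + (l + 1))) * X ^ 2 = Q at *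
  have key : L * P1 + Q * P0 - Pa * (L * Q1 + Q * Q0) = L * (P1 - Pa * Q1) +
      Q * (P0 - Pa * Q0) := by
    rw [mul_sub, mul_sub, ← mul_assoc L Pa, ← mul_assoc Q Pa, c1, c2, mul_add,
      mul_assoc Pa L, mul_assoc Pa Q]
    abel
  rw [key]
  have h1 := hLV.mul ih1
  have h2 := hQV.mul ih0
  rw [zero_add] at h1 h2
  exact h1.add h2

theorem main_id (l : ℕ) : InV R m 1
    (Pch R.p R.T ((m : ℕ) + 1 + l) - Pch R.p R.T ((m : ℕ) + 1) * Pch (p2 R m) (T2 R m) l) := by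
  induction l using Nat.twoStepInduction with
  | zero => exact main_zero R m
  | one => exact main_one R m
  | more l ih0 ih1 => exact main_step R m l ih1 ih0

theorem D_one : ∀ l, Dch R.p R.T (l + 1) 1 = R.θ (sv N (l + 1))
  | 0 => by
    rw [D_one_one]
    unfold Pool.Agent.W181.WH.Rep.p
    have : sv N (1 - 1) = 0 := by simp [sv]
    rw [this, sub_zero]
  | l + 1 => by
    rw [D_ss_one, D_one l]
    unfold Pool.Agent.W181.WH.Rep.p
    rw [← map_add]
    congr 1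
    have : l + 2 - 1 = l + 1 := by omega
    rw [this]
    ring

/-- **DEC** -/
theorem t_dec : S_COEF → S_REL → S_VMUL → S_DEC := by
  intro _ _ _ N B _ _ R m l
  refine ⟨fun k => ?_, fun i j => ?_, ?_, fun a k => ?_, fun a k => ?_⟩
  · have h := main_id R m l k
    rw [coeff_sub, coeff_Pch, coeff_mul] at h
    convert h using 3 with x hx
    rw [coeff_Pch, coeff_Pch]
  · obtain ⟨h1, h2, h3, h4, h5⟩ := rel R
    refine comm_Dch _ _ _ _ _ (fun j' hj' _ => ?_) (fun j' hj' _ => ?_)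
    · refine (comm_Dch _ _ _ _ _ (fun i' hi' _ => h1 _ _) (fun i' hi' _ => ?_)).symm
      exact h3 _ _ (by omega) (by omega)
    · refine (comm_Dch _ _ _ _ _ (fun i' hi' _ => ?_) (fun i' hi' _ => h2 _ _)).symm
      exact (h3 _ _ (by omega) (by omega)).symm
  · rw [D_one]
    congr 1
    have hm := m.2
    unfold sv
    rw [dif_pos ⟨by omega, by omega⟩]
    congr 1
  · have h := InV.Pch (R := R) (m := m) (V_p R) (fun j => V_T R j (Or.inl rfl)) a k
    rwa [coeff_Pch] at h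
  · have h := InV.Pch (R := R) (m := m) (p := fun k => R.p ((m : ℕ) + 1 + k))
      (T := fun k => R.T ((m : ℕ) + 1 + k)) (fun _ => V_p R _)
      (fun j => V_T R _ (Or.inl rfl)) a k
    rwa [coeff_Pch] at h

end main

end Pool.Agent.W800.WH
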