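import Pool.Agent.W181.WH.Stm

namespace Pool.Agent.W800.WH

open Pool.Agent.W181.WH

variable {N : ℕ} {B : Type} [Ring B] [Algebra ℂ B] (R : Rep N B)

theorem shiftP_X (S : Fin N → ℕ) (m : Fin N) :
    shiftP S (MvPolynomial.X m) = MvPolynomial.X m + MvPolynomial.C (S m : ℂ) := by
  simp [shiftP]

theorem shiftP_sv {i j : ℕ} (hj : 1 ≤ j ∧ j ≤ N) :
    shiftP (Pi.single (⟨j - 1, by omega⟩ : Fin N) 1) (sv N i) =
      sv N i + (if i = j then 1 else 0) := by
  unfold sv
  by_cases hi : 1 ≤ i ∧ i ≤ N
  · rw [dif_pos hi, shiftP_X]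
    congr 1
    by_cases hij : i = j
    · subst hij
      simp
    · have : (⟨i - 1, by omega⟩ : Fin N) ≠ ⟨j - 1, by omega⟩ := by
        intro h
        have := congrArg Fin.val h
        simp only at this
        omega
      simp [hij, Pi.single_eq_of_ne this]
  · rw [dif_neg hi]
    have : i ≠ j := by
      intro h
      subst h
      exact hi hj
    simp [this]

theorem T_p {i j : ℕ} : R.T j * R.p i =
    (R.p i + (if i = j then 1 else 0) - (if i - 1 = j then 1 else 0)) * R.T j := by
  unfold Rep.T Rep.p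
  by_cases hj : 1 ≤ j ∧ j ≤ N
  · rw [dif_pos hj, R.comm, map_sub, shiftP_sv hj, shiftP_sv hj]
    congr 1
    have h : ∀ c : Prop, [Decidable c] → R.θ (if c then 1 else 0) = if c then 1 else 0 := by
      intro c _
      split_ifs <;> simp
    rw [map_sub, map_add, map_add, h, h, map_sub]
    abel
  · rw [dif_neg hj, zero_mul, mul_zero]

theorem p_zero : R.p 0 = 0 := by
  unfold Rep.p
  simp

theorem p_comm (i j : ℕ) : Commute (R.p i) (R.p j) := by
  unfold Rep.p Commute SemiconjBy
  rw [← map_mul, ← map_mul, mul_comm]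

theorem T_comm (i j : ℕ) : Commute (R.T i) (R.T j) := by
  unfold Rep.T Commute SemiconjBy
  split_ifs
  · rw [← R.τ_add, ← R.τ_add, add_comm]
  all_goals simp

theorem rel : TodaRel R.p R.T := by
  refine ⟨p_comm R, T_comm R, ?_, ?_, ?_⟩
  · intro i j h1 h2
    by_cases hi : i = 0
    · subst hi
      rw [p_zero]
      exact Commute.zero_left _
    · have := T_p R (i := i) (j := j)
      have h3 : ¬ (i - 1 = j) := by omega
      rw [if_neg h1, if_neg h3] at this
      simp only [add_zero, sub_zero] at this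
      exact this.symm
  · intro j
    by_cases hj : j = 0
    · subst hj
      unfold Rep.T
      simp
    · have := T_p R (i := j) (j := j)
      have h3 : ¬ (j - 1 = j) := by omega
      rw [if_pos rfl, if_neg h3] at this
      simpa using this
  · intro j
    have := T_p R (i := j + 1) (j := j)
    have h1 : ¬ (j + 1 = j) := by omega
    have h3 : j + 1 - 1 = j := by omega
    rw [if_neg h1, if_pos h3] at this
    simpa using this

/-- **REL** -/
theorem t_rel : S_REL := by
  intro N B _ _ R
  refine ⟨rel R, ?_, ?_⟩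
  · intro a
    obtain ⟨h1, h2, h3, h4, h5⟩ := rel R
    refine ⟨fun i j => h1 _ _, fun i j => h2 _ _, ?_, fun j => h4 _, fun j => h5 _⟩
    intro i j hij hij'
    exact h3 _ _ (by omega) (by omega)
  · intro m S
    rw [R.comm, shiftP_X, map_add]
    congr 2
    have : (MvPolynomial.C (S m : ℂ) : MvPolynomial (Fin N) ℂ) =
        algebraMap ℂ (MvPolynomial (Fin N) ℂ) (S m : ℂ) := rfl
    rw [this, AlgHom.commutes]

end Pool.Agent.W800.WH
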