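import Pool.Agent.W800.WH.Split

open MeasureTheory Set

namespace Pool.Agent.W800.WH

open Pool.Agent.W181.WH

theorem sum_LIdx {m : ℕ} (F : LIdx m → ℝ) :
    ∑ i : Fin m, ∑ j : Fin m, (if h : j < i then F ⟨(i, j), h⟩ else 0) = ∑ p, F p := by
  classical
  rw [← Fintype.sum_prod_type' (f := fun i j : Fin m => if h : j < i then F ⟨(i, j), h⟩ else 0)]
  set g : Fin m × Fin m → ℝ := fun q => if h : q.2 < q.1 then F ⟨(q.1, q.2), h⟩ else 0 with hg
  have h1 : ∀ p : LIdx m, F p = g p.1 := by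
    intro p
    have := p.2
    simp only [hg, dif_pos this]
  rw [Fintype.sum_congr _ _ h1,
    ← Finset.sum_subtype (Finset.univ.filter fun q : Fin m × Fin m => q.2 < q.1)
      (fun q => by simp) g]
  rw [Finset.sum_filter]
  refine Finset.sum_congr rfl fun q _ => ?_
  by_cases h : q.2 < q.1
  · rw [if_pos h]
  · rw [if_neg h]
    simp [hg, h]

theorem tr_ML {m : ℕ} (t x : Fin m → ℝ) (w : LIdx m → ℝ) :
    (ML (t, w) * Dg x).trace = ∑ i, t i ^ 2 * Real.exp (2 * x i) +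
      ∑ p : LIdx m, (t p.1.1 * Real.exp (x p.1.2)) ^ 2 * w p ^ 2 := by
  have h1 : (ML (t, w) * Dg x).trace =
      ∑ i : Fin m, ∑ j : Fin m, (lM w i j) ^ 2 * t i ^ 2 * Real.exp (2 * x j) := by
    unfold Matrix.trace
    rw [Finset.sum_comm]
    refine Finset.sum_congr rfl fun j _ => ?_
    simp only [Matrix.diag_apply, Dg, ML, Matrix.mul_apply, Matrix.diagonal_apply,
      Matrix.transpose_apply, mul_ite, mul_zero, Finset.sum_ite_eq', Finset.mem_univ, if_true,
      Finset.sum_mul]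
    refine Finset.sum_congr rfl fun i _ => ?_
    ring
  have h2 : ∀ i j : Fin m, (lM w i j) ^ 2 * t i ^ 2 * Real.exp (2 * x j) =
      (if i = j then t i ^ 2 * Real.exp (2 * x j) else 0) +
      (if h : j < i then (fun p : LIdx m => (t p.1.1 * Real.exp (x p.1.2)) ^ 2 * w p ^ 2)
        ⟨(i, j), h⟩ else 0) := by
    intro i j
    unfold lM
    by_cases h : j < i
    · have hne : i ≠ j := ne_of_gt h
      have e : Real.exp (2 * x j) = Real.exp (x j) ^ 2 := by
        rw [← Real.exp_nat_mul]; norm_num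
      simp only [dif_pos h, if_neg hne, zero_add, e]
      ring
    · by_cases h' : i = j
      · subst h'
        simp
      · simp [h, h']
  rw [h1]
  simp only [h2]
  simp only [Finset.sum_add_distrib, Finset.sum_ite_eq, Finset.mem_univ, if_true]
  congr 1
  exact sum_LIdx fun p : LIdx m => (t p.1.1 * Real.exp (x p.1.2)) ^ 2 * w p ^ 2

theorem exp_tr {m : ℕ} (t x : Fin m → ℝ) (w : LIdx m → ℝ) :
    Real.exp (-Real.pi * (ML (t, w) * Dg x).trace) =
      (∏ i, Real.exp (-Real.pi * (t i ^ 2 * Real.exp (2 * x i)))) *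
        ∏ p : LIdx m, Real.exp (-(Real.pi * (t p.1.1 * Real.exp (x p.1.2)) ^ 2) * w p ^ 2) := by
  rw [tr_ML, mul_add, Real.exp_add, Finset.mul_sum, Finset.mul_sum, Real.exp_sum, Real.exp_sum]
  congr 1
  refine Finset.prod_congr rfl fun p _ => ?_
  congr 1
  ring

theorem gauss1 {a : ℝ} (ha : 0 < a) :
    Integrable (fun w : ℝ => Real.exp (-(Real.pi * a ^ 2) * w ^ 2)) ∧
    ∫ w : ℝ, Real.exp (-(Real.pi * a ^ 2) * w ^ 2) = a⁻¹ := by
  have hb : 0 < Real.pi * a ^ 2 := by positivity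
  refine ⟨integrable_exp_neg_mul_sq hb, ?_⟩
  rw [integral_gaussian]
  have : Real.pi / (Real.pi * a ^ 2) = (a⁻¹) ^ 2 := by
    field_simp
  rw [this, Real.sqrt_sq (by positivity)]

theorem gauss2 {a : ℝ} (ha : 0 < a) :
    Integrable (fun w : ℝ => ((Real.exp (-(Real.pi * a ^ 2) * w ^ 2) : ℝ) : ℂ) *
      Complex.exp (-(2 * Real.pi * Complex.I) * (w : ℂ))) ∧
    ∫ w : ℝ, ((Real.exp (-(Real.pi * a ^ 2) * w ^ 2) : ℝ) : ℂ) *
      Complex.exp (-(2 * Real.pi * Complex.I) * (w : ℂ)) =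
      ((a⁻¹ * Real.exp (-Real.pi / a ^ 2) : ℝ) : ℂ) := by
  have hb : 0 < Real.pi * a ^ 2 := by positivity
  constructor
  · have h1 := (gauss1 ha).1.ofReal (𝕜 := ℂ)
    refine h1.mul_bdd (c := 1) ?_ ?_
    · exact Continuous.aestronglyMeasurable (by fun_prop)
    · refine Filter.Eventually.of_forall fun w => ?_
      have : (-(2 * Real.pi * Complex.I) * (w : ℂ)) = ((-(2 * Real.pi * w) : ℝ) : ℂ) * Complex.I := by
        push_cast; ring
      rw [this, Complex.norm_exp_ofReal_mul_I]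
  · have h := fourierIntegral_gaussian (b := ((Real.pi * a ^ 2 : ℝ) : ℂ))
      (by rw [Complex.ofReal_re]; exact hb) (-(2 * Real.pi : ℂ))
    have e1 : ∀ w : ℝ, ((Real.exp (-(Real.pi * a ^ 2) * w ^ 2) : ℝ) : ℂ) *
        Complex.exp (-(2 * Real.pi * Complex.I) * (w : ℂ)) =
        Complex.exp (Complex.I * (-(2 * Real.pi : ℂ)) * w) *
          Complex.exp (-((Real.pi * a ^ 2 : ℝ) : ℂ) * w ^ 2) := by
      intro w
      rw [mul_comm]
      congr 1
      · congr 1; ring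
      · rw [Complex.ofReal_exp]
        congr 1
        push_cast
        ring
    simp only [e1]
    rw [h]
    have e2 : ((Real.pi : ℂ) / ((Real.pi * a ^ 2 : ℝ) : ℂ)) ^ (1 / 2 : ℂ) = ((a⁻¹ : ℝ) : ℂ) := by
      have h3 : ((Real.pi : ℂ) / ((Real.pi * a ^ 2 : ℝ) : ℂ)) = (((a⁻¹) ^ 2 : ℝ) : ℂ) := by
        rw [← Complex.ofReal_div]
        congr 1
        field_simp
      have h4 : (1 / 2 : ℂ) = ((1 / 2 : ℝ) : ℂ) := by push_cast; ring
      rw [h3, h4, ← Complex.ofReal_cpow (by positivity)]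
      congr 1
      rw [← Real.sqrt_eq_rpow, Real.sqrt_sq (by positivity)]
    have hpi : (Real.pi : ℂ) ≠ 0 := by exact_mod_cast Real.pi_ne_zero
    have ha' : (a : ℂ) ≠ 0 := by exact_mod_cast ha.ne'
    have e3 : Complex.exp (-(-(2 * (Real.pi : ℂ))) ^ 2 / (4 * ((Real.pi * a ^ 2 : ℝ) : ℂ))) =
        ((Real.exp (-Real.pi / a ^ 2) : ℝ) : ℂ) := by
      rw [Complex.ofReal_exp]
      congr 1
      push_cast
      field_simp
      ring
    rw [e2, e3, ← Complex.ofReal_mul]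

theorem ch_prod {m : ℕ} (w : LIdx m → ℝ) :
    ch w = ∏ p : LIdx m, (if (p.1.1 : ℕ) = (p.1.2 : ℕ) + 1 then
      Complex.exp (-(2 * Real.pi * Complex.I) * (w p : ℂ)) else 1) := by
  unfold ch
  push_cast
  rw [Finset.mul_sum, Complex.exp_sum]
  refine Finset.prod_congr rfl fun p _ => ?_
  split_ifs <;> simp

/-- **WINT** -/
theorem t_wint : S_WINT := by
  intro m t x ht
  have ha : ∀ p : LIdx m, 0 < t p.1.1 * Real.exp (x p.1.2) := fun p =>
    mul_pos (ht _) (Real.exp_pos _)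
  refine ⟨?_, ?_, ?_⟩
  · simp only [exp_tr]
    refine Integrable.const_mul ?_ _
    exact Integrable.fintype_prod (f := fun (p : LIdx m) (w : ℝ) =>
      Real.exp (-(Real.pi * (t p.1.1 * Real.exp (x p.1.2)) ^ 2) * w ^ 2))
      (fun p => (gauss1 (ha p)).1)
  · simp only [exp_tr]
    rw [integral_const_mul]
    congr 1
    have h := integral_fintype_prod_volume_eq_prod (𝕜 := ℝ) (fun (p : LIdx m) (w : ℝ) =>
      Real.exp (-(Real.pi * (t p.1.1 * Real.exp (x p.1.2)) ^ 2) * w ^ 2))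
    rw [h]
    exact Finset.prod_congr rfl fun p _ => (gauss1 (ha p)).2
  · simp only [exp_tr, ch_prod]
    have e : ∀ w : LIdx m → ℝ, (((∏ i, Real.exp (-Real.pi * (t i ^ 2 * Real.exp (2 * x i)))) *
        ∏ p : LIdx m, Real.exp (-(Real.pi * (t p.1.1 * Real.exp (x p.1.2)) ^ 2) * w p ^ 2) : ℝ) : ℂ) *
        ∏ p : LIdx m, (if (p.1.1 : ℕ) = (p.1.2 : ℕ) + 1 then
          Complex.exp (-(2 * Real.pi * Complex.I) * (w p : ℂ)) else 1) =
        ((∏ i, Real.exp (-Real.pi * (t i ^ 2 * Real.exp (2 * x i))) : ℝ) : ℂ) *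
        ∏ p : LIdx m, (((Real.exp (-(Real.pi * (t p.1.1 * Real.exp (x p.1.2)) ^ 2) *
          w p ^ 2) : ℝ) : ℂ) * (if (p.1.1 : ℕ) = (p.1.2 : ℕ) + 1 then
          Complex.exp (-(2 * Real.pi * Complex.I) * (w p : ℂ)) else 1)) := by
      intro w
      rw [Finset.prod_mul_distrib, Complex.ofReal_mul, mul_assoc]
      congr 2
      push_cast
      rfl
    simp only [e]
    rw [integral_const_mul, Complex.ofReal_mul]
    congr 1
    have h := integral_fintype_prod_volume_eq_prod (𝕜 := ℂ) (fun (p : LIdx m) (w : ℝ) =>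
      (((Real.exp (-(Real.pi * (t p.1.1 * Real.exp (x p.1.2)) ^ 2) *
          w ^ 2) : ℝ) : ℂ) * (if (p.1.1 : ℕ) = (p.1.2 : ℕ) + 1 then
          Complex.exp (-(2 * Real.pi * Complex.I) * (w : ℂ)) else 1)))
    rw [h, Complex.ofReal_prod]
    refine Finset.prod_congr rfl fun p _ => ?_
    by_cases hp : (p.1.1 : ℕ) = (p.1.2 : ℕ) + 1
    · simp only [hp, if_true]
      rw [(gauss2 (ha p)).2]
      congr 3
      rw [mul_pow, ← Real.exp_nat_mul]
      norm_num
    · simp only [hp, if_false, mul_one]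
      rw [integral_complex_ofReal, (gauss1 (ha p)).2]

end Pool.Agent.W800.WH
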