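import Pool.Agent.W181.WH.Stm

open MeasureTheory Set

namespace Pool.Agent.W800.WH

open Pool.Agent.W181.WH

/-- the substitution -/
noncomputable def eF (n : ℕ) (ξ : Fin n → ℝ) : Fin n → ℝ := fun j => Real.exp (ξ j)

/-- its derivative -/
noncomputable def eD (n : ℕ) (ξ : Fin n → ℝ) : (Fin n → ℝ) →L[ℝ] (Fin n → ℝ) :=
  LinearMap.toContinuousLinearMap (Matrix.toLin' (Matrix.diagonal fun j => Real.exp (ξ j)))

theorem eD_apply (n : ℕ) (ξ v : Fin n → ℝ) (j : Fin n) : eD n ξ v j = Real.exp (ξ j) * v j := by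
  unfold eD
  simp [Matrix.mulVec_diagonal]

theorem eF_deriv (n : ℕ) (ξ : Fin n → ℝ) : HasFDerivAt (eF n) (eD n ξ) ξ := by
  rw [hasFDerivAt_pi']
  intro j
  have h1 : HasFDerivAt (fun ξ : Fin n → ℝ => ξ j)
      (ContinuousLinearMap.proj j : (Fin n → ℝ) →L[ℝ] ℝ) ξ :=
    (ContinuousLinearMap.proj j : (Fin n → ℝ) →L[ℝ] ℝ).hasFDerivAt
  have h2 := h1.exp
  refine h2.congr_fderiv ?_
  ext v
  simp only [ContinuousLinearMap.comp_apply, ContinuousLinearMap.proj_apply, smul_apply,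
    smul_eq_mul]
  rw [eD_apply]

theorem eD_det (n : ℕ) (ξ : Fin n → ℝ) : |(eD n ξ).det| = ∏ j, Real.exp (ξ j) := by
  have h : (eD n ξ).det = ∏ j, Real.exp (ξ j) := by
    unfold eD
    show LinearMap.det (Matrix.toLin' (Matrix.diagonal fun j => Real.exp (ξ j))) = _
    rw [LinearMap.det_toLin', Matrix.det_diagonal]
  rw [h, abs_of_pos (Finset.prod_pos fun j _ => Real.exp_pos _)]

theorem eF_image (n : ℕ) : eF n '' univ = {y | ∀ j, 0 < y j} := by
  ext y
  constructor
  · rintro ⟨ξ, _, rfl⟩ j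
    exact Real.exp_pos _
  · intro h
    refine ⟨fun j => Real.log (y j), mem_univ _, ?_⟩
    funext j
    exact Real.exp_log (h j)

theorem eF_inj (n : ℕ) : InjOn (eF n) univ := by
  intro ξ _ ξ' _ h
  funext j
  exact Real.exp_injective (congrFun h j)

/-- **CV** -/
theorem t_cv : S_CV := by
  intro n f
  have hd : ∀ x ∈ (univ : Set (Fin n → ℝ)), HasFDerivWithinAt (eF n) (eD n x) univ x :=
    fun x _ => (eF_deriv n x).hasFDerivWithinAt
  have h1 := integrableOn_image_iff_integrableOn_abs_det_fderiv_smul volume MeasurableSet.univ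
    hd (eF_inj n) f
  have h2 := integral_image_eq_integral_abs_det_fderiv_smul volume MeasurableSet.univ
    hd (eF_inj n) f
  rw [eF_image] at h1 h2
  rw [integrableOn_univ] at h1
  rw [setIntegral_univ] at h2
  have e : (fun x => |(eD n x).det| • f (eF n x)) =
      fun ξ : Fin n → ℝ => (∏ j, (Real.exp (ξ j) : ℂ)) * f (fun j => Real.exp (ξ j)) := by
    funext ξ
    rw [eD_det]
    show ((∏ j, Real.exp (ξ j) : ℝ)) • f (eF n ξ) = _
    rw [Complex.real_smul]
    push_cast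
    rfl
  rw [e] at h1 h2
  exact ⟨h1, h2⟩

end Pool.Agent.W800.WH
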