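import Pool.Agent.W181.WH.Stm

open MeasureTheory

namespace Pool.Agent.W800.WH

open Pool.Agent.W181.WH

/-- the coordinates -/
def sF (m : ℕ) : Fin m ⊕ LIdx m → LIdx (m + 1)
  | Sum.inl i => ⟨(i.succ, 0), Fin.succ_pos i⟩
  | Sum.inr p => ⟨(p.1.1.succ, p.1.2.succ), Fin.succ_lt_succ_iff.mpr p.2⟩

theorem sF_bij (m : ℕ) : Function.Bijective (sF m) := by
  constructor
  · rintro (i | p) (j | q) h
    · have h1 := congrArg (fun r : LIdx (m + 1) => r.1.1) h
      simp only [sF] at h1
      rw [Fin.succ_injective _ h1]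
    · have h1 := congrArg (fun r : LIdx (m + 1) => r.1.2) h
      simp only [sF] at h1
      exact absurd h1.symm (Fin.succ_ne_zero _)
    · have h1 := congrArg (fun r : LIdx (m + 1) => r.1.2) h
      simp only [sF] at h1
      exact absurd h1 (Fin.succ_ne_zero _)
    · have h1 := congrArg (fun r : LIdx (m + 1) => r.1.1) h
      have h2 := congrArg (fun r : LIdx (m + 1) => r.1.2) h
      simp only [sF] at h1 h2
      congr 1
      apply Subtype.ext
      exact Prod.ext (Fin.succ_injective _ h1) (Fin.succ_injective _ h2)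
  · rintro ⟨⟨a, b⟩, h⟩
    have hlt : b < a := h
    obtain ⟨a', rfl⟩ := Fin.exists_succ_eq.2 (ne_of_gt (lt_of_le_of_lt (Fin.zero_le b) hlt))
    by_cases hb : b = 0
    · subst hb
      exact ⟨Sum.inl a', rfl⟩
    · obtain ⟨b', rfl⟩ := Fin.exists_succ_eq.2 hb
      exact ⟨Sum.inr ⟨(a', b'), Fin.succ_lt_succ_iff.1 hlt⟩, rfl⟩

/-- the bijection of coordinates -/
noncomputable def sE (m : ℕ) : Fin m ⊕ LIdx m ≃ LIdx (m + 1) := Equiv.ofBijective _ (sF_bij m)

/-- the splitting as a measurable equivalence -/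
noncomputable def spl (m : ℕ) : (LIdx (m + 1) → ℝ) ≃ᵐ (Fin m → ℝ) × (LIdx m → ℝ) :=
  (MeasurableEquiv.piCongrLeft (fun _ => ℝ) (sE m)).symm.trans
    (MeasurableEquiv.sumPiEquivProdPi (fun _ => ℝ))

theorem spl_eq (m : ℕ) : (fun v : LIdx (m + 1) → ℝ => (colZ v, colR v)) = spl m := by
  funext v
  rfl

theorem spl_mp (m : ℕ) : MeasurePreserving (spl m) volume (volume.prod volume) :=
  (volume_measurePreserving_piCongrLeft (fun _ => ℝ) (sE m)).symm.trans
    (volume_measurePreserving_sumPiEquivProdPi (fun _ => ℝ))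

theorem lM_zero_zero {m : ℕ} (v : LIdx (m + 1) → ℝ) : lM v 0 0 = 1 := by simp [lM]

theorem lM_succ_zero {m : ℕ} (v : LIdx (m + 1) → ℝ) (i : Fin m) : lM v i.succ 0 = colZ v i := by
  have h : (0 : Fin (m + 1)) < i.succ := Fin.succ_pos i
  simp only [lM, dif_pos h]
  rfl

theorem lM_succ_succ {m : ℕ} (v : LIdx (m + 1) → ℝ) (i j : Fin m) :
    lM v i.succ j.succ = lM (colR v) i j := by
  by_cases h : j < i
  · have h' : j.succ < i.succ := Fin.succ_lt_succ_iff.2 h
    simp only [lM, dif_pos h, dif_pos h']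
    rfl
  · have h' : ¬ j.succ < i.succ := fun h'' => h (Fin.succ_lt_succ_iff.1 h'')
    simp only [lM, dif_neg h, dif_neg h', Fin.succ_inj]

theorem entry {m : ℕ} (x : Fin (m + 1) → ℝ) (v : LIdx (m + 1) → ℝ) (i j : Fin m) :
    (lM v * Dg x * (lM v).transpose) i.succ j.succ = PZ x (colZ v) (colR v) i j := by
  simp only [PZ, Matrix.add_apply, Matrix.smul_apply, Matrix.vecMulVec_apply, Dg,
    Matrix.mul_apply, Matrix.transpose_apply, Matrix.diagonal_apply, mul_ite, mul_zero,
    Finset.sum_ite_eq', Finset.mem_univ, if_true, smul_eq_mul]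
  rw [Fin.sum_univ_succ]
  simp only [lM_succ_zero, lM_succ_succ]
  ring

/-- reindexing of the minors -/
noncomputable def bE {m : ℕ} (k : Fin m) : {i : Fin m // k ≤ i} ≃ {i : Fin (m + 1) // k.succ ≤ i} :=
  Equiv.ofBijective (fun i => ⟨i.1.succ, Fin.succ_le_succ_iff.2 i.2⟩) (by
    constructor
    · intro i j h
      apply Subtype.ext
      exact Fin.succ_injective _ (congrArg Subtype.val h)
    · rintro ⟨a, ha⟩
      obtain ⟨a', rfl⟩ := Fin.exists_succ_eq.2
        (ne_of_gt (lt_of_lt_of_le (Fin.succ_pos k) ha))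
      exact ⟨⟨a', Fin.succ_le_succ_iff.1 ha⟩, rfl⟩)

theorem Bm_succ {m : ℕ} (x : Fin (m + 1) → ℝ) (v : LIdx (m + 1) → ℝ) (k : Fin m) :
    Bm (lM v * Dg x * (lM v).transpose) k.succ = Bm (PZ x (colZ v) (colR v)) k := by
  unfold Bm
  rw [← Matrix.det_submatrix_equiv_self (bE k)]
  congr 1
  ext i j
  exact entry x v i.1 j.1

theorem lM_det {m : ℕ} (v : LIdx m → ℝ) : (lM v).det = 1 := by
  rw [Matrix.det_of_lowerTriangular (lM v)]
  · exact Finset.prod_eq_one fun i _ => by simp [lM]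
  · intro i j hij
    have h : i < j := hij
    simp [lM, not_lt.2 h.le, ne_of_lt h]

theorem PZ_pos {m : ℕ} (x : Fin (m + 1) → ℝ) (z : Fin m → ℝ) (v : LIdx m → ℝ) :
    (PZ x z v).PosDef := by
  unfold PZ
  refine Matrix.PosDef.add_posSemidef ?_ ?_
  · have h1 : (Dg fun i => x i.succ).PosDef := by
      unfold Dg
      rw [Matrix.posDef_diagonal_iff]
      intro i
      exact Real.exp_pos _
    have h2 := h1.mul_mul_conjTranspose_same (B := lM v) (by
      apply Matrix.vecMul_injective_of_isUnit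
      rw [Matrix.isUnit_iff_isUnit_det, lM_det]
      exact isUnit_one)
    rwa [Matrix.conjTranspose_eq_transpose_of_trivial] at h2
  · have h := Matrix.posSemidef_vecMulVec_self_star (R := ℝ) z
    have h2 : star z = z := by
      funext i
      simp
    rw [h2] at h
    exact h.smul (Real.exp_pos _).le

/-- **SPLIT** -/
theorem t_split : S_SPLIT := by
  intro m
  refine ⟨?_, ?_, ?_, fun x v k => Bm_succ x v k, fun x z v => PZ_pos x z v⟩
  · rw [spl_eq]
    exact spl_mp m
  · intro g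
    have h := (spl m).surjective g
    obtain ⟨v, hv⟩ := h
    exact ⟨v, hv⟩
  · rw [spl_eq]
    exact (spl m).measurableEmbedding

end Pool.Agent.W800.WH
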