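import Pool.Agent.W800.WH.Split

open MeasureTheory

namespace Pool.Agent.W800.WH

open Pool.Agent.W181.WH

theorem sum_split {m : ℕ} (f : LIdx (m + 1) → ℝ) :
    ∑ p, f p = ∑ i : Fin m, f (sF m (Sum.inl i)) + ∑ p : LIdx m, f (sF m (Sum.inr p)) := by
  rw [← Fintype.sum_sum_type fun r => f (sF m r)]
  exact ((sE m).sum_comp f).symm

/-- **SPLITC** -/
theorem t_splitc : S_SPLITC := by
  intro m v
  unfold ch
  rw [← Complex.exp_add]
  congr 1
  rw [sum_split]
  have h1 : ∑ i : Fin (m + 1), (if ((sF (m + 1) (Sum.inl i)).1.1 : ℕ) =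
      ((sF (m + 1) (Sum.inl i)).1.2 : ℕ) + 1 then v (sF (m + 1) (Sum.inl i)) else 0) =
      colZ v 0 := by
    rw [Finset.sum_eq_single 0]
    · exact if_pos rfl
    · intro i _ hi
      have : (i : ℕ) ≠ 0 := fun h => hi (Fin.ext h)
      refine if_neg fun h => this ?_
      have h' : (i : ℕ) + 1 = 0 + 1 := h
      omega
    · intro h
      exact absurd (Finset.mem_univ _) h
  have h2 : ∑ p : LIdx (m + 1), (if ((sF (m + 1) (Sum.inr p)).1.1 : ℕ) =
      ((sF (m + 1) (Sum.inr p)).1.2 : ℕ) + 1 then v (sF (m + 1) (Sum.inr p)) else 0) =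
      ∑ p : LIdx (m + 1), if (p.1.1 : ℕ) = (p.1.2 : ℕ) + 1 then colR v p else 0 := by
    refine Finset.sum_congr rfl fun p _ => ?_
    by_cases h : (p.1.1 : ℕ) = (p.1.2 : ℕ) + 1
    · rw [if_pos h]
      refine if_pos ?_
      show (p.1.1 : ℕ) + 1 = (p.1.2 : ℕ) + 1 + 1
      omega
    · rw [if_neg h]
      refine if_neg fun h' => h ?_
      have h'' : (p.1.1 : ℕ) + 1 = (p.1.2 : ℕ) + 1 + 1 := h'
      omega
  rw [h1, h2]
  push_cast
  ring

end Pool.Agent.W800.WH
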