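import Pool.Agent.W181.WH.Stm

open Filter Topology

namespace Pool.Agent.W800.WH

open Pool.Agent.W181.WH

theorem sum_alpha (N : ℕ) : ∑ i : Fin (N + 1), ((N : ℂ) / 2 - (i : ℕ)) = 0 := by
  rw [Finset.sum_sub_distrib, Fin.sum_univ_eq_sum_range (fun i => (i : ℂ)) (N + 1)]
  have h := Finset.sum_range_id_mul_two (N + 1)
  have h2 : (∑ i ∈ Finset.range (N + 1), (i : ℂ)) * 2 = ((N : ℂ) + 1) * N := by
    have := congrArg (fun n : ℕ => (n : ℂ)) h
    push_cast at this
    simpa using this
  simp only [Finset.sum_const, Finset.card_univ, Fintype.card_fin, nsmul_eq_mul]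
  push_cast
  linear_combination (-1 / 2 : ℂ) * h2

/-- **UNIQ** -/
theorem t_uniq : S_UNIQ := by
  intro N F G hF hG h α hα
  set α' : Fin (N + 1) → ℂ := fun i => (N : ℂ) / 2 - (i : ℕ) with hα'
  have hsum : ∑ i, α' i = 0 := sum_alpha N
  have hdiff : ∀ i : Fin N, α' i.castSucc - α' i.succ = 1 := by
    intro i
    simp only [hα', Fin.val_castSucc, Fin.val_succ]
    push_cast
    ring
  set γ : ℂ → (Fin (N + 1) → ℂ) := fun z => α' + z • (α - α') with hγ
  have hγd : Differentiable ℂ γ := by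
    rw [hγ]
    fun_prop
  have hγ0 : γ 0 = α' := by simp [hγ]
  have hγ1 : γ 1 = α := by simp [hγ]
  have hs : ∀ z, ∑ i, γ z i = 0 := by
    intro z
    simp only [hγ, Pi.add_apply, Pi.smul_apply, Pi.sub_apply, smul_eq_mul]
    have e : ∑ i, (α' i + z * (α i - α' i)) = ∑ i, α' i + z * (∑ i, α i - ∑ i, α' i) := by
      rw [Finset.sum_add_distrib, ← Finset.mul_sum, Finset.sum_sub_distrib α α']
    rw [e, hsum, hα]
    ring
  have hev : (F ∘ γ) =ᶠ[𝓝 0] (G ∘ γ) := by
    have h1 : ∀ᶠ z in 𝓝 (0 : ℂ), ∀ i : Fin N, 0 < (γ z i.castSucc - γ z i.succ).re := by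
      rw [eventually_all]
      intro i
      have hc : Continuous fun z => (γ z i.castSucc - γ z i.succ).re := by
        have := hγd.continuous
        fun_prop
      have h0 : 0 < (γ 0 i.castSucc - γ 0 i.succ).re := by
        rw [hγ0, hdiff i]
        norm_num
      exact hc.continuousAt.eventually (lt_mem_nhds h0)
    filter_upwards [h1] with z hz
    exact h (γ z) (hs z) hz
  have hf : AnalyticOnNhd ℂ (F ∘ γ) Set.univ :=
    (hF.comp hγd).differentiableOn.analyticOnNhd isOpen_univ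
  have hg : AnalyticOnNhd ℂ (G ∘ γ) Set.univ :=
    (hG.comp hγd).differentiableOn.analyticOnNhd isOpen_univ
  have := congrFun (hf.eq_of_eventuallyEq hg hev) 1
  simpa [hγ1] using this

end Pool.Agent.W800.WH
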